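import Pool.Agent.H37.CNS.Stmts

/-! Row PZ5 of board cns. -/

set_option autoImplicit false

namespace Pool.CND

namespace PZ5Aux

theorem pow_comm_central {G : Type} [Group G] {g h c : G} (hc : ∀ x, c * x = x * c)
    (e : h * g = c * g * h) (n : ℕ) : h ^ n * g = c ^ n * g * h ^ n := by
  induction n with
  | zero => simp
  | succ n ih =>
    have hcn : ∀ x, c ^ n * x = x * c ^ n := fun x =>
      (Commute.pow_left (hc x) n)
    calc h ^ (n + 1) * g = h ^ n * (h * g) := by rw [pow_succ, mul_assoc]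
      _ = h ^ n * (c * (g * h)) := by rw [e, mul_assoc]
      _ = c * (h ^ n * g) * h := by
          rw [← mul_assoc (h ^ n) c, ← hc (h ^ n)]; simp only [mul_assoc]
      _ = c * (c ^ n * g * h ^ n) * h := by rw [ih]
      _ = c ^ (n + 1) * g * h ^ (n + 1) := by
          rw [pow_succ', pow_succ]; simp only [mul_assoc]

theorem mul_pow_class_two {G : Type} [Group G] {g h c : G} (hc : ∀ x, c * x = x * c)
    (e : h * g = c * g * h) (n : ℕ) : (g * h) ^ n = c ^ (n.choose 2) * (g ^ n * h ^ n) := by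
  induction n with
  | zero => simp
  | succ n ih =>
    have hcn : ∀ (m : ℕ) (x : G), c ^ m * x = x * c ^ m := fun m x => (Commute.pow_left (hc x) m)
    have e2 : (n + 1).choose 2 = n.choose 2 + n := by
      rw [Nat.choose_succ_succ' n 1, Nat.choose_one_right, add_comm]
    calc (g * h) ^ (n + 1) = c ^ (n.choose 2) * (g ^ n * h ^ n) * (g * h) := by rw [pow_succ, ih]
      _ = c ^ (n.choose 2) * (g ^ n * (h ^ n * g) * h) := by simp only [mul_assoc]
      _ = c ^ (n.choose 2) * (g ^ n * (c ^ n * g * h ^ n) * h) := by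
          rw [pow_comm_central hc e n]
      _ = c ^ (n.choose 2) * ((g ^ n * c ^ n) * (g * (h ^ n * h))) := by simp only [mul_assoc]
      _ = c ^ (n.choose 2) * ((c ^ n * g ^ n) * (g * (h ^ n * h))) := by rw [hcn n (g ^ n)]
      _ = c ^ ((n + 1).choose 2) * (g ^ (n + 1) * h ^ (n + 1)) := by
          rw [e2, pow_add, pow_succ g, pow_succ h]; simp only [mul_assoc]

theorem mul_pow_p {p : ℕ} {G : Type} [Group G] (hp : p.Prime) (hp2 : p ≠ 2) (H : PC p G)
    (g h : G) : (g * h) ^ p = g ^ p * h ^ p := by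
  set c : G := h * g * h⁻¹ * g⁻¹ with hcdef
  have hcz : c ∈ Subgroup.center G := H.comm h g
  have hc : ∀ x, c * x = x * c := fun x => (Subgroup.mem_center_iff.1 hcz x).symm
  have e : h * g = c * g * h := by rw [hcdef]; group
  have h1 := pow_comm_central hc e p
  have h2 : h ^ p * g = g * h ^ p := (Subgroup.mem_center_iff.1 (H.pow h) g).symm
  have h3 : c ^ p = 1 := by
    rw [h2, mul_assoc] at h1
    exact (mul_eq_right.1 h1.symm)
  have h4 : p ∣ p.choose 2 := by
    apply hp.dvd_choose_self (by norm_num)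
    have := hp.two_le
    omega
  obtain ⟨m, hm⟩ := h4
  rw [mul_pow_class_two hc e p, hm, pow_mul, h3, one_pow, one_mul]

theorem extAdd0 {p : ℕ} [Fact p.Prime] {M : Type} [AddCommGroup M] [Module (ZMod p) M]
    (R : AddSubgroup M) (f : R →+ ZMod p) : ∃ L : M →+ ZMod p, ∀ r : R, L r = f r := by
  have hS : ∀ x : M, x ∈ AddSubgroup.toZModSubmodule p R ↔ x ∈ R := fun x => AddSubgroup.mem_toZModSubmodule p
  let f1 : (AddSubgroup.toZModSubmodule p R) →+ ZMod p := AddMonoidHom.mk' (fun v => f ⟨v.1, (hS v.1).1 v.2⟩) (by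
      intro v w
      rw [← map_add]; rfl)
  obtain ⟨L, hL⟩ := LinearMap.exists_extend (f1.toZModLinearMap p)
  exact ⟨L.toAddMonoidHom, fun r => LinearMap.congr_fun hL (⟨r.1, (hS r.1).2 r.2⟩ : AddSubgroup.toZModSubmodule p R)⟩

theorem extAdd {p : ℕ} [Fact p.Prime] {M : Type} [AddCommGroup M] (hM : ∀ w : M, p • w = 0)
    (R : AddSubgroup M) (f : R →+ ZMod p) : ∃ L : M →+ ZMod p, ∀ r : R, L r = f r :=
  @extAdd0 p _ M _ (AddCommGroup.zmodModule hM) R f

/-- extension of homomorphisms to `ℤ / p` -/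
theorem extend {p : ℕ} (hp : p.Prime) {A B : Type} [Group A] [Group B] (hcomm : ∀ a b : A, a * b = b * a) (f : B →* A)
    (y : B →* Multiplicative (ZMod p)) (hy : ∀ (b : B) (a : A), f b = a ^ p → y b = 1) :
    ∃ χ : A →* Multiplicative (ZMod p), ∀ b, χ (f b) = y b := by
  have : Fact p.Prime := ⟨hp⟩
  let hA : CommGroup A := { (inferInstance : Group A) with mul_comm := hcomm }
  let N : Subgroup A := (powMonoidHom p : A →* A).range
  have hN : ∀ w : Additive (A ⧸ N), p • w = 0 := by
    intro w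
    obtain ⟨a, ha⟩ := QuotientGroup.mk_surjective (Additive.toMul w)
    have : w = Additive.ofMul (QuotientGroup.mk a : A ⧸ N) := by rw [ha]; rfl
    rw [this, ← ofMul_pow, ← QuotientGroup.mk_pow]
    rw [(QuotientGroup.eq_one_iff _).2 (show a ^ p ∈ N from ⟨a, rfl⟩)]
    rfl
  let F : B →* A ⧸ N := (QuotientGroup.mk' N).comp f
  have hker : F.ker ≤ y.ker := by
    intro b hb
    have h1 : (QuotientGroup.mk (f b) : A ⧸ N) = 1 := hb
    rw [QuotientGroup.eq_one_iff] at h1
    obtain ⟨a, ha⟩ := h1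
    exact hy b a ha.symm
  let y0 : F.range →* Multiplicative (ZMod p) :=
    (QuotientGroup.lift F.ker y hker).comp (QuotientGroup.quotientKerEquivRange F).symm.toMonoidHom
  have hy0 : ∀ b, y0 ⟨F b, ⟨b, rfl⟩⟩ = y b := by
    intro b
    have : (QuotientGroup.quotientKerEquivRange F).symm ⟨F b, ⟨b, rfl⟩⟩ = QuotientGroup.mk b := by
      rw [MulEquiv.symm_apply_eq]
      rfl
    show (QuotientGroup.lift F.ker y hker) ((QuotientGroup.quotientKerEquivRange F).symm _) = _
    rw [this]
    rfl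
  let R : AddSubgroup (Additive (A ⧸ N)) := Subgroup.toAddSubgroup F.range
  let f0 : R →+ ZMod p := AddMonoidHom.mk' (fun v =>
    Multiplicative.toAdd (y0 ⟨Additive.toMul (v : Additive (A ⧸ N)), v.2⟩)) (by
      intro v w
      show Multiplicative.toAdd (y0 ((⟨Additive.toMul (v : Additive (A ⧸ N)), v.2⟩ : F.range) *
        (⟨Additive.toMul (w : Additive (A ⧸ N)), w.2⟩ : F.range))) = _
      rw [map_mul]; rfl)
  obtain ⟨L, hL⟩ := extAdd hN R f0
  let χ : A →* Multiplicative (ZMod p) :=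
    { toFun := fun a => Multiplicative.ofAdd (L (Additive.ofMul (QuotientGroup.mk a : A ⧸ N)))
      map_one' := by
        show Multiplicative.ofAdd (L 0) = 1
        rw [map_zero]; rfl
      map_mul' := fun a b => by
        show Multiplicative.ofAdd (L (Additive.ofMul (QuotientGroup.mk a : A ⧸ N) +
          Additive.ofMul (QuotientGroup.mk b : A ⧸ N))) = _
        rw [map_add]; rfl }
  refine ⟨χ, fun b => ?_⟩
  have h2 : L (Additive.ofMul (F b)) = f0 ⟨Additive.ofMul (F b), ⟨b, rfl⟩⟩ :=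
    hL ⟨Additive.ofMul (F b), ⟨b, rfl⟩⟩
  show Multiplicative.ofAdd (L (Additive.ofMul (F b))) = y b
  rw [h2]
  exact hy0 b

end PZ5Aux

open PZ5Aux in
theorem pz5_thm : S_PZ5 := by
  intro p G _ _ y hp hp2 H hy hyz
  have hmul := mul_pow_p hp hp2 H
  let f : G →* Subgroup.center G :=
    { toFun := fun g => ⟨g ^ p, H.pow g⟩
      map_one' := Subtype.ext (one_pow p)
      map_mul' := fun g h => Subtype.ext (hmul g h) }
  let Y : G →* Multiplicative (ZMod p) :=
    { toFun := fun g => Multiplicative.ofAdd (y g)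
      map_one' := by rw [hyz 1 (Subgroup.one_mem _)]; rfl
      map_mul' := fun g h => by rw [hy]; rfl }
  have hcom : ∀ a b : Subgroup.center G, a * b = b * a := fun a b =>
    Subtype.ext (Subgroup.mem_center_iff.1 b.2 a)
  obtain ⟨χ, hχ⟩ := extend (A := Subgroup.center G) (B := G) hp hcom f Y (by
    intro g (a : Subgroup.center G) ha
    have h1 : g ^ p = (a : G) ^ p := congrArg Subtype.val ha
    have h2 : (g * (a : G)⁻¹) ^ p = 1 := by
      rw [hmul, inv_pow, ← h1, mul_inv_cancel]
    have h3 := H.om _ h2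
    have h4 : g ∈ Subgroup.center G := by
      have := Subgroup.mul_mem _ h3 a.2
      simpa using this
    show Multiplicative.ofAdd (y g) = 1
    rw [hyz g h4]; rfl)
  classical
  refine ⟨fun g => if h : g ∈ Subgroup.center G then Multiplicative.toAdd (χ ⟨g, h⟩) else 0,
    ?_, ?_⟩
  · intro g hg h hh
    beta_reduce
    rw [dif_pos hg, dif_pos hh, dif_pos (Subgroup.mul_mem _ hg hh)]
    have : (⟨g * h, Subgroup.mul_mem _ hg hh⟩ : Subgroup.center G) = ⟨g, hg⟩ * ⟨h, hh⟩ := rfl
    rw [this, map_mul]; rfl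
  · intro g
    beta_reduce
    rw [dif_pos (H.pow g)]
    have := hχ g
    show Multiplicative.toAdd (χ (f g)) = y g
    rw [this]; rfl

end Pool.CND
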